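import Mathlib

open Matrix Finset Module

namespace Pool.Agent.Riesz

variable {ι X : Type} [Fintype ι] [DecidableEq ι] [Fintype X] [DecidableEq X]

/-- the matrix `∑ i, t i • u i ⊗ w i` -/
noncomputable def mat (u w : ι → X → ℂ) (t : ι → ℂ) : Matrix X X ℂ :=
  ∑ i, t i • vecMulVec (u i) (w i)

omit [DecidableEq ι] [DecidableEq X] in
theorem mat_mulVec (u w : ι → X → ℂ) (t : ι → ℂ) (c : X → ℂ) :
    mat u w t *ᵥ c = ∑ i, (t i * (w i ⬝ᵥ c)) • u i := by
  unfold mat
  rw [Matrix.sum_mulVec]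
  apply Finset.sum_congr rfl
  intro i _
  rw [Matrix.smul_mulVec, Matrix.vecMulVec_mulVec]
  ext x
  simp only [Pi.smul_apply, MulOpposite.smul_eq_mul_unop, MulOpposite.unop_op, smul_eq_mul]
  ring

omit [DecidableEq ι] [DecidableEq X] [Fintype X] in
theorem mat_transpose (u w : ι → X → ℂ) (t : ι → ℂ) :
    (mat u w t)ᵀ = mat w u t := by
  unfold mat
  rw [Matrix.transpose_sum]
  apply Finset.sum_congr rfl
  intro i _
  rw [Matrix.transpose_smul, Matrix.transpose_vecMulVec]

omit [DecidableEq ι] in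
theorem span_of_det {u w : ι → X → ℂ} {t : ι → ℂ} (h : (mat u w t).det ≠ 0) (S : Finset ι)
    (hS : ∀ i, i ∉ S → t i = 0) :
    ⊤ ≤ Submodule.span ℂ (Set.range (fun i : S => u i)) := by
  intro b _
  have hb : mat u w t *ᵥ ((mat u w t)⁻¹ *ᵥ b) = b := by
    rw [Matrix.mulVec_mulVec, Matrix.mul_nonsing_inv _ (isUnit_iff_ne_zero.mpr h),
      Matrix.one_mulVec]
  rw [← hb, mat_mulVec]
  apply Submodule.sum_mem
  intro i _
  by_cases hi : i ∈ S
  · exact Submodule.smul_mem _ _ (Submodule.subset_span ⟨⟨i, hi⟩, rfl⟩)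
  · rw [hS i hi, zero_mul, zero_smul]
    exact Submodule.zero_mem _

theorem exists_common_basis (u w : ι → X → ℂ) (t₀ : ι → ℂ) (h₀ : (mat u w t₀).det ≠ 0) :
    ∃ S : Finset ι, S.card = Fintype.card X ∧
      LinearIndependent ℂ (fun i : S => u i) ∧ LinearIndependent ℂ (fun i : S => w i) := by
  classical
  -- minimal support
  let P : ℕ → Prop := fun m => ∃ t : ι → ℂ, (univ.filter (fun i => t i ≠ 0)).card = m ∧
    (mat u w t).det ≠ 0
  have hP : ∃ m, P m := ⟨_, t₀, rfl, h₀⟩
  obtain ⟨t, ht, hdet⟩ := Nat.find_spec hP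
  have hmin := fun m hm => Nat.find_min hP (m := m) hm
  set S := univ.filter (fun i => t i ≠ 0) with hS
  have hunit : IsUnit (mat u w t).det := isUnit_iff_ne_zero.mpr hdet
  have hone : ∀ i ∈ S, t i * (w i ⬝ᵥ ((mat u w t)⁻¹ *ᵥ u i)) = 1 := by
    intro i hi
    have hti : t i ≠ 0 := (mem_filter.1 hi).2
    set t' := Function.update t i 0 with ht'
    have hsub : univ.filter (fun j => t' j ≠ 0) ⊂ S := by
      rw [Finset.ssubset_iff_of_subset]
      · refine ⟨i, hi, ?_⟩
        simp [ht']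
      · intro j hj
        rw [mem_filter] at hj ⊢
        refine ⟨mem_univ _, ?_⟩
        intro h0
        apply hj.2
        rw [ht']
        by_cases hji : j = i
        · rw [hji, Function.update_self]
        · rw [Function.update_of_ne hji, h0]
    have hcard := Finset.card_lt_card hsub
    rw [ht] at hcard
    have hsing : (mat u w t').det = 0 := by
      by_contra hne
      exact hmin _ hcard ⟨t', rfl, hne⟩
    obtain ⟨c, hc0, hc⟩ := Matrix.exists_mulVec_eq_zero_iff.mpr hsing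
    -- mat t = mat t' + t i u w^T
    have hdecomp : mat u w t *ᵥ c = (t i * (w i ⬝ᵥ c)) • u i := by
      have h1 : mat u w t *ᵥ c - mat u w t' *ᵥ c = (t i * (w i ⬝ᵥ c)) • u i := by
        rw [mat_mulVec, mat_mulVec, ← Finset.sum_sub_distrib, Finset.sum_eq_single i]
        · rw [ht', Function.update_self, zero_mul, zero_smul, sub_zero]
        · intro j _ hj
          rw [ht', Function.update_of_ne hj, sub_self]
        · intro h; exact absurd (mem_univ i) h
      rw [← h1, hc, sub_zero]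
    have hc2 : c = (t i * (w i ⬝ᵥ c)) • ((mat u w t)⁻¹ *ᵥ u i) := by
      rw [← Matrix.mulVec_smul, ← hdecomp, Matrix.mulVec_mulVec, Matrix.nonsing_inv_mul _ hunit,
        Matrix.one_mulVec]
    have hwc : w i ⬝ᵥ c ≠ 0 := by
      intro h0
      rw [h0, mul_zero, zero_smul] at hc2
      exact hc0 hc2
    have h3 : w i ⬝ᵥ c = (t i * (w i ⬝ᵥ c)) * (w i ⬝ᵥ ((mat u w t)⁻¹ *ᵥ u i)) := by
      conv_lhs => rw [hc2]
      rw [dotProduct_smul, smul_eq_mul]
    have h4 : (w i ⬝ᵥ c) * (t i * (w i ⬝ᵥ ((mat u w t)⁻¹ *ᵥ u i))) = (w i ⬝ᵥ c) * 1 := by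
      rw [mul_one]
      conv_rhs => rw [h3]
      ring
    exact mul_left_cancel₀ hwc h4
  have hcardS : S.card = Fintype.card X := by
    have h1 : (∑ i ∈ S, t i * (w i ⬝ᵥ ((mat u w t)⁻¹ *ᵥ u i)) : ℂ) = S.card := by
      rw [Finset.sum_congr rfl hone]; simp
    have h2 : (∑ i, t i * (w i ⬝ᵥ ((mat u w t)⁻¹ *ᵥ u i)) : ℂ) = Fintype.card X := by
      have h3 : Matrix.trace ((mat u w t)⁻¹ * mat u w t) = Fintype.card X := by
        rw [Matrix.nonsing_inv_mul _ hunit, Matrix.trace_one]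
      have h6 : (mat u w t)⁻¹ * mat u w t =
          ∑ i, t i • vecMulVec ((mat u w t)⁻¹ *ᵥ u i) (w i) := by
        conv_lhs =>
          enter [2]
          rw [mat]
        rw [Matrix.mul_sum]
        apply Finset.sum_congr rfl
        intro i _
        rw [Matrix.mul_smul, Matrix.mul_vecMulVec]
      rw [← h3, h6, Matrix.trace_sum]
      apply Finset.sum_congr rfl
      intro i _
      rw [Matrix.trace_smul, Matrix.trace_vecMulVec, smul_eq_mul, dotProduct_comm]
    have h4 : (∑ i ∈ S, t i * (w i ⬝ᵥ ((mat u w t)⁻¹ *ᵥ u i)) : ℂ) =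
        ∑ i, t i * (w i ⬝ᵥ ((mat u w t)⁻¹ *ᵥ u i)) := by
      apply Finset.sum_subset (subset_univ _)
      intro i _ hi
      have : t i = 0 := by
        by_contra h
        exact hi (mem_filter.2 ⟨mem_univ _, h⟩)
      rw [this, zero_mul]
    have h5 : (S.card : ℂ) = Fintype.card X := by rw [← h1, h4, h2]
    exact_mod_cast h5
  have hzero : ∀ i, i ∉ S → t i = 0 := by
    intro i hi
    by_contra h
    exact hi (mem_filter.2 ⟨mem_univ _, h⟩)
  refine ⟨S, hcardS, ?_, ?_⟩
  · apply linearIndependent_of_top_le_span_of_card_eq_finrank (span_of_det hdet S hzero)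
    rw [Fintype.card_coe, hcardS, Module.finrank_fintype_fun_eq_card]
  · have hdet' : (mat w u t).det ≠ 0 := by
      rw [← mat_transpose, Matrix.det_transpose]; exact hdet
    apply linearIndependent_of_top_le_span_of_card_eq_finrank (span_of_det hdet' S hzero)
    rw [Fintype.card_coe, hcardS, Module.finrank_fintype_fun_eq_card]

end Pool.Agent.Riesz
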