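import Mathlib

open Matrix Finset

namespace Pool.Agent.Riesz

/-- A generic matrix whose pattern is Latin in rows and columns is nonsingular. -/
theorem latin_det {G : Type} (L : Finset G) :
    ∀ (X : Type) [Fintype X] [DecidableEq X] (r : X → X → G),
      (∀ x, Function.Injective (r x)) → (∀ y, Function.Injective (fun x => r x y)) →
      (∀ x y, r x y ∈ L) → ∃ K : G → ℂ, (Matrix.of (fun x y => K (r x y))).det ≠ 0 := by
  classical
  induction L using Finset.induction_on with
  | empty =>
    intro X _ _ r _ _ h3
    have : IsEmpty X := ⟨fun x => by simpa using h3 x x⟩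
    exact ⟨fun _ => 0, by rw [Matrix.det_isEmpty]; exact one_ne_zero⟩
  | insert g L hg ih =>
    intro X _ _ r h1 h2 h3
    -- a permutation that puts all the entries `g` on the diagonal
    obtain ⟨π, hπ⟩ : ∃ π : Equiv.Perm X, ∀ x y, r x y = g → π x = y := by
      let f : {x // ∃ y, r x y = g} → {y // ∃ x, r x y = g} :=
        fun x => ⟨x.2.choose, x.1, x.2.choose_spec⟩
      have hf : Function.Bijective f := by
        constructor
        · rintro ⟨x, hx⟩ ⟨x', hx'⟩ heq
          have e1 : hx.choose = hx'.choose := congrArg Subtype.val heq
          have e2 := hx.choose_spec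
          have e3 := hx'.choose_spec
          rw [← e1] at e3
          exact Subtype.ext (h2 _ (e2.trans e3.symm))
        · rintro ⟨y, x, hxy⟩
          refine ⟨⟨x, y, hxy⟩, ?_⟩
          apply Subtype.ext
          have e2 := (⟨y, hxy⟩ : ∃ y, r x y = g).choose_spec
          exact h1 x (e2.trans hxy.symm)
      refine ⟨(Equiv.ofBijective f hf).extendSubtype, ?_⟩
      intro x y hxy
      rw [Equiv.extendSubtype_apply_of_mem _ x ⟨y, hxy⟩]
      have e2 := (⟨y, hxy⟩ : ∃ y, r x y = g).choose_spec
      exact h1 x (e2.trans hxy.symm)
    set r' : X → X → G := fun x y => r x (π y) with hr'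
    have hr'g : ∀ x y, r' x y = g → x = y := by
      intro x y h
      exact π.injective (hπ x _ h)
    -- the remaining block
    let p : X → Prop := fun x => r' x x = g
    obtain ⟨K', hK'⟩ := ih {x : X // ¬ p x} (fun x y => r' x.1 y.1)
      (fun x y y' h => by
        have := h1 x.1 h
        exact Subtype.ext (π.injective this))
      (fun y x x' h => Subtype.ext (h2 _ h))
      (fun x y => by
        have h4 := h3 x.1 (π y.1)
        rw [Finset.mem_insert] at h4
        rcases h4 with h4 | h4
        · exfalso
          have h5 : x.1 = y.1 := hr'g _ _ h4
          apply x.2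
          change r' x.1 x.1 = g
          have h6 : r' x.1 y.1 = g := h4
          rw [← h5] at h6
          exact h6
        · exact h4)
    -- rows in the block `p` are scaled by `s`
    let N : ℂ → Matrix X X ℂ := fun s => Matrix.of fun x y =>
      if p x then (if x = y then 1 else s * K' (r' x y)) else K' (r' x y)
    have hN0 : (N 0).det ≠ 0 := by
      rw [Matrix.twoBlockTriangular_det' (N 0) p]
      · apply mul_ne_zero
        · have : toSquareBlockProp (N 0) p = 1 := by
            ext x y
            simp only [toSquareBlockProp_def, Matrix.of_apply, N, x.2, if_true, zero_mul,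
              Matrix.one_apply, Subtype.ext_iff]
          rw [this, det_one]
          exact one_ne_zero
        · have : toSquareBlockProp (N 0) (fun i => ¬ p i) =
              Matrix.of (fun x y : {x : X // ¬ p x} => K' (r' x.1 y.1)) := by
            ext x y
            simp only [toSquareBlockProp_def, Matrix.of_apply, N, x.2, if_false]
          rw [this]
          exact hK'
      · intro x hx y hy
        have hxy : x ≠ y := by rintro rfl; exact hy hx
        simp only [N, Matrix.of_apply, hx, if_true, hxy, if_false, zero_mul]
    have hcont : Continuous (fun s => (N s).det) := by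
      apply Continuous.matrix_det
      apply continuous_matrix
      intro x y
      simp only [N, Matrix.of_apply]
      split_ifs
      · exact continuous_const
      · exact continuous_id.mul continuous_const
      · exact continuous_const
    have hopen : IsOpen {s | (N s).det ≠ 0} := isOpen_ne_fun hcont continuous_const
    obtain ⟨s, hs0, hs⟩ : ∃ s : ℂ, s ≠ 0 ∧ (N s).det ≠ 0 := by
      have hmem : {s | (N s).det ≠ 0} ∈ nhds (0 : ℂ) := hopen.mem_nhds hN0
      have h5 : ∃ᶠ s in nhdsWithin (0 : ℂ) {0}ᶜ, s ∈ {s | (N s).det ≠ 0} := by
        apply Filter.Eventually.frequently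
        exact mem_nhdsWithin_of_mem_nhds hmem
      obtain ⟨s, h6, h7⟩ := (h5.and_eventually self_mem_nhdsWithin).exists
      exact ⟨s, h7, h6⟩
    refine ⟨Function.update K' g s⁻¹, ?_⟩
    -- relate the two matrices
    set M : Matrix X X ℂ := Matrix.of (fun x y => Function.update K' g s⁻¹ (r x y)) with hM
    set M' : Matrix X X ℂ := Matrix.of (fun x y => Function.update K' g s⁻¹ (r' x y)) with hM'
    have hMM' : M' = M.submatrix id π := by
      ext x y; rfl
    have hdet' : (N s) = Matrix.diagonal (fun x => if p x then s else 1) * M' := by
      ext x y
      rw [Matrix.diagonal_mul]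
      simp only [N, hM', Matrix.of_apply]
      by_cases hx : p x
      · simp only [hx, if_true]
        by_cases hxy : x = y
        · subst hxy
          have : r' x x = g := hx
          rw [this, Function.update_self, if_pos rfl, mul_inv_cancel₀ hs0]
        · have : r' x y ≠ g := fun h => hxy (hr'g _ _ h)
          rw [Function.update_of_ne this, if_neg hxy]
      · simp only [hx, if_false, one_mul]
        have : r' x y ≠ g := by
          intro h
          have hxy := hr'g _ _ h
          subst hxy
          exact hx h
        rw [Function.update_of_ne this]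
    intro hcon
    apply hs
    rw [hdet', det_mul, hMM']
    have : (M.submatrix id π).det = 0 := by
      have h8 := Matrix.det_permute' π M
      rw [hcon, mul_zero] at h8
      exact h8
    rw [this, mul_zero]

end Pool.Agent.Riesz
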